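import Pool.Agent.Y388.HL.VertCount

/-!
# Face numbers of marked chain-order polytopes, for all decompositions

For a marked poset with real nonnegative marks and two ARBITRARY decompositions `(U₁, U₂)`,
`(V₁, V₂)` of `P \ A` (admissible or not) with `U₁ ⊆ V₁`, every face number of the marked
chain-order polytope of `(V₁, V₂)` is finite and at most that of `(U₁, U₂)`. In the unmarked case
(`P` bounded, only `⊥` and `⊤` marked, with marks `0` and `1`) all these polytopes have the same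
number of vertices, which is the number of upper sets of `P \ {⊥, ⊤}`.
-/

namespace Pool.Agent.Results.MP_011ee1_co.AllDecompositions

open Set

/-- The number of `i`-dimensional faces of `Q`. The nonempty faces of `Q` are the sets of the form
`{x ∈ Q | ∀ y ∈ Q, l y ≤ l x}` for a linear functional `l` (nonempty exposed faces, `Q` included,
which is the case `l = 0`); the dimension of a face is the dimension of its affine hull. -/
noncomputable def fNum {V : Type*} [AddCommGroup V] [Module ℝ V] [TopologicalSpace V]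
    (Q : Set V) (i : ℕ) : ℕ∞ :=
  Set.encard {F : Set V | F.Nonempty ∧ IsExposed ℝ Q F ∧
    Module.finrank ℝ (vectorSpan ℝ F) = i}

/-- `(U₁, U₂)` is a decomposition of `P \ A`: the two parts cover `P \ A` and are disjoint. No
order condition is asked, so this is weaker than being admissible. -/
structure Decomposition {P : Type*} (A : Set P) (U₁ U₂ : Set {p : P // p ∉ A}) :
    Prop where
  union_eq : U₁ ∪ U₂ = Set.univ
  inter_eq : U₁ ∩ U₂ = ∅

/-- `μ_r`, which is the mark `λ_r` for `r ∈ A` and the coordinate `x_r` for `r ∉ A`. -/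
noncomputable def mu {P : Type*} {A : Set P} (lam : A → ℝ) (x : {p : P // p ∉ A} → ℝ) (r : P) : ℝ :=
  open Classical in if h : r ∈ A then lam ⟨r, h⟩ else x ⟨r, h⟩

/-- The marked chain-order polytope `CO_{U₁,U₂}(λ)` in `ℝ^{P \ A}`, by the five conditions of the
problem. Chains `p₁ < ⋯ < pₛ` in `U₂` are given as nonempty finite totally ordered subsets `s` of
`U₂`. -/
def CO {P : Type*} [PartialOrder P] {A : Set P} (lam : A → ℝ) (U₁ U₂ : Set {p : P // p ∉ A}) :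
    Set ({p : P // p ∉ A} → ℝ) :=
  {x | (∀ p ∈ U₂, 0 ≤ x p) ∧
    (∀ p ∈ U₁, ∀ q ∈ U₁, p < q → x p ≤ x q) ∧
    (∀ p ∈ U₁, ∀ a : A, (p : P) < a → x p ≤ lam a) ∧
    (∀ q ∈ U₁, ∀ b : A, (b : P) < q → lam b ≤ x q) ∧
    (∀ s : Finset {p : P // p ∉ A}, s.Nonempty → (s : Set {p : P // p ∉ A}) ⊆ U₂ →
      IsChain (· ≤ ·) (s : Set {p : P // p ∉ A}) → ∀ q ∈ U₁, (∀ p ∈ s, p < q) →
        ∑ p ∈ s, x p ≤ x q) ∧
    (∀ s : Finset {p : P // p ∉ A}, s.Nonempty → (s : Set {p : P // p ∉ A}) ⊆ U₂ →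
      IsChain (· ≤ ·) (s : Set {p : P // p ∉ A}) → ∀ a b : P, a ∈ A ∪ Subtype.val '' U₁ →
        b ∈ A ∪ Subtype.val '' U₁ → (∀ p ∈ s, b < (p : P) ∧ (p : P) < a) →
          ∑ p ∈ s, x p ≤ mu lam x a - mu lam x b)}

theorem result :
    (∀ (P : Type) [PartialOrder P] [Finite P] (A : Set P),
      (∀ p : P, IsMin p ∨ IsMax p → p ∈ A) → ∀ lam : A → ℝ, (∀ a, 0 ≤ lam a) →
        ∀ U₁ U₂ V₁ V₂ : Set {p : P // p ∉ A}, Decomposition A U₁ U₂ → Decomposition A V₁ V₂ →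
          U₁ ⊆ V₁ → ∀ i : ℕ,
            fNum (CO lam V₁ V₂) i ≤ fNum (CO lam U₁ U₂) i ∧ fNum (CO lam U₁ U₂) i ≠ ⊤) ∧
    (∀ (P : Type) [PartialOrder P] [BoundedOrder P] [Finite P] (lam : ({⊥, ⊤} : Set P) → ℝ),
      lam ⟨⊥, Or.inl rfl⟩ = 0 → lam ⟨⊤, Or.inr rfl⟩ = 1 →
        ∀ U₁ U₂ : Set {p : P // p ∉ ({⊥, ⊤} : Set P)}, Decomposition {⊥, ⊤} U₁ U₂ →
          fNum (CO lam U₁ U₂) 0 =
            Set.encard {F : Set {p : P // p ∉ ({⊥, ⊤} : Set P)} | IsUpperSet F}) := by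
  refine ⟨?_, ?_⟩
  · intro P _ _ A hA lam hlam U₁ U₂ V₁ V₂ hU hV hUV i
    exact ⟨Pool.Agent.Y388.HL.Problem.mono A hA lam hlam U₁ U₂ V₁ V₂ ⟨hU.1, hU.2⟩ ⟨hV.1, hV.2⟩
      hUV i, Pool.Agent.Y388.HL.Problem.finite A hA lam hlam U₁ U₂ ⟨hU.1, hU.2⟩ i⟩
  · intro P _ _ _ lam h0 h1 U₁ U₂ hU
    have := Fintype.ofFinite P
    exact Pool.Agent.Y388.HL.VertCount.vertices lam h0 h1 U₁ U₂ ⟨hU.1, hU.2⟩

end Pool.Agent.Results.MP_011ee1_co.AllDecompositions
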